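import Pool.Agent.Lib.TG_h24.ResDeg
import Pool.Agent.Lib.TG_h81.Proj

/-!
# TANK G, ASM-c: the residue field of a bad prime divisor
-/

set_option autoImplicit false

namespace Pool.Agent.TG24

open Pool.Agent.TG Pool.Agent.TG.Cnt Pool.Agent.TG77
open Pool.Agent.TG42 (mI hh)
open Pool.Agent.LU2 (locV le_locV locV_mono locV_le locV_inv locV_mem locV_locV)
open Module (finrank)
open MvPolynomial (aeval eval)

universe u

/-- The data in one affine chart with coordinates `ζ : Fin n → K`, `e` the homogeneous coordinate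
which is a unit of the chart, at the valuation ring `v`. -/
structure ChartAt {k K : Type u} [Field k] [Field K] [Algebra k K] {n : ℕ} (ζ : Fin n → K)
    (v : ValuationSubring K) (Γ : Fin (n + 1) → K) (e : K) (l : Fin (n + 1)) (t T : ℕ)
    (g : Fin (n + 1) → MvPolynomial (Fin n) k) (Δ : MvPolynomial (Fin n) k) : Prop where
  deg : ∀ j, (g j).totalDegree ≤ t + 1
  eq : ∀ j, aeval ζ (g j) = Γ j / e ^ (t + 1)
  ne : Δ ≠ 0
  disc : v.valuation (aeval ζ Δ) < 1
  pt : ∀ η, eval η Δ = 0 → ∃ j, j ≠ l ∧ eval η (g j) ≠ 0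
  ideal : ∀ η i₀, i₀ ≠ l → eval η (g i₀) ≠ 0 → eval η Δ = 0 →
    mI η ^ T ≤ Ideal.span (hh g η i₀ '' {j | j ≠ l}) ⊔ Ideal.span {Δ} ⊔ mI η ^ (T + 1)

section Alg

variable {k M : Type u} [Field k] [Field M] [Algebra k M] {n : ℕ}

/-- From points over `k` to points over `M`. -/
theorem exists_ne_of_pt [IsAlgClosed k] {ι : Type*} {g : ι → MvPolynomial (Fin n) k}
    {Δ : MvPolynomial (Fin n) k} {S : Set ι}
    (h : ∀ η, eval η Δ = 0 → ∃ j ∈ S, eval η (g j) ≠ 0) {ζ : Fin n → M}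
    (hζ : aeval ζ Δ = 0) : ∃ j ∈ S, aeval ζ (g j) ≠ 0 := by
  by_contra hcon
  push Not at hcon
  set I : Ideal (MvPolynomial (Fin n) k) := RingHom.ker (aeval ζ : MvPolynomial (Fin n) k →ₐ[k] M)
    with hI
  have hI1 : I ≠ ⊤ := RingHom.ker_ne_top _
  have h1 : (MvPolynomial.zeroLocus k I).Nonempty := by
    rw [Set.nonempty_iff_ne_empty]
    intro h2
    have h3 := MvPolynomial.vanishingIdeal_zeroLocus_eq_radical (K := k) I
    rw [h2] at h3
    have h4 : (1 : MvPolynomial (Fin n) k) ∈ I.radical := by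
      rw [← h3]
      intro x hx
      exact absurd hx (Set.notMem_empty x)
    exact hI1 (Ideal.radical_eq_top.1 ((Ideal.eq_top_iff_one _).2 h4))
  obtain ⟨η, hη⟩ := h1
  have hη' : ∀ q ∈ I, eval η q = 0 := fun q hq => hη q hq
  obtain ⟨j, hj, hne⟩ := h η (hη' Δ (by rw [hI, RingHom.mem_ker]; exact hζ))
  exact hne (hη' _ (by rw [hI, RingHom.mem_ker]; exact hcon j hj))

theorem prod_pow_mem {ι : Type*} (s : Finset ι) (e : ι → ℕ) {x : ι → M} {L : Submodule k M}
    (hx : ∀ i, x i ∈ L) : ∏ i ∈ s, x i ^ e i ∈ L ^ ∑ i ∈ s, e i := by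
  classical
  induction s using Finset.induction_on with
  | empty =>
    rw [Finset.prod_empty, Finset.sum_empty, pow_zero]
    exact Submodule.one_le.1 le_rfl
  | insert a s ha ih =>
    rw [Finset.prod_insert ha, Finset.sum_insert ha, pow_add]
    exact Submodule.mul_mem_mul (Submodule.pow_mem_pow _ (hx a) _) ih

/-- Values of polynomials of bounded degree. -/
theorem aeval_mem_span_pow {X : Fin (n + 1) → M} {α : Fin (n + 1)} (hα : X α ≠ 0) {t : ℕ}
    {q : MvPolynomial (Fin n) k} (hq : q.totalDegree ≤ t) :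
    aeval (fun i => X (α.succAbove i) / X α) q * X α ^ t ∈
      Submodule.span k (Set.range X) ^ t := by
  have h1 : ∀ i, X i ∈ Submodule.span k (Set.range X) := fun i => Submodule.subset_span ⟨i, rfl⟩
  rw [MvPolynomial.aeval_def, MvPolynomial.eval₂_eq, Finset.sum_mul]
  refine Submodule.sum_mem _ fun s hs => ?_
  have h2 : ∑ i, s i ≤ t := by
    refine le_trans (le_of_eq ?_) ((MvPolynomial.le_totalDegree hs).trans hq)
    rw [Finsupp.sum_fintype _ _ (fun _ => rfl)]
  have h3 : (algebraMap k M (MvPolynomial.coeff s q) *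
      ∏ i ∈ s.support, (X (α.succAbove i) / X α) ^ s i) * X α ^ t =
      MvPolynomial.coeff s q • ((∏ i, X (α.succAbove i) ^ s i) * X α ^ (t - ∑ i, s i)) := by
    have h4 : ∏ i ∈ s.support, (X (α.succAbove i) / X α) ^ s i =
        ∏ i, (X (α.succAbove i) / X α) ^ s i := by
      refine Finset.prod_subset (Finset.subset_univ _) fun i _ hi => ?_
      rw [Finsupp.notMem_support_iff.1 hi, pow_zero]
    have h5 : ∏ i, (X (α.succAbove i) / X α) ^ s i =
        (∏ i, X (α.succAbove i) ^ s i) / X α ^ (∑ i, s i) := by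
      rw [← Finset.prod_pow_eq_pow_sum, ← Finset.prod_div_distrib]
      exact Finset.prod_congr rfl fun i _ => div_pow _ _ _
    have h6 : X α ^ t = X α ^ (∑ i, s i) * X α ^ (t - ∑ i, s i) := by
      rw [← pow_add, Nat.add_sub_cancel' h2]
    rw [h4, h5, h6, Algebra.smul_def]
    have h7 : X α ^ (∑ i, s i) ≠ 0 := pow_ne_zero _ hα
    field_simp
  rw [h3]
  refine Submodule.smul_mem _ _ ?_
  have h8 : Submodule.span k (Set.range X) ^ t = Submodule.span k (Set.range X) ^ (∑ i, s i) *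
      Submodule.span k (Set.range X) ^ (t - ∑ i, s i) := by
    rw [← pow_add, Nat.add_sub_cancel' h2]
  rw [h8]
  exact Submodule.mul_mem_mul (prod_pow_mem _ _ fun i => h1 _)
    (Submodule.pow_mem_pow _ (h1 α) _)

end Alg

section Res

/-- The residues of the data in one affine chart. -/
structure ResChart {k κ : Type u} [Field k] [Field κ] [Algebra k κ] {n : ℕ} (ζ : Fin n → κ)
    (γ : Fin (n + 1) → κ) (e : κ) (l : Fin (n + 1)) (t T : ℕ)
    (g : Fin (n + 1) → MvPolynomial (Fin n) k) (Δ : MvPolynomial (Fin n) k) : Prop where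
  deg : ∀ j, (g j).totalDegree ≤ t + 1
  eq : ∀ j, aeval ζ (g j) = γ j / e ^ (t + 1)
  ne : Δ ≠ 0
  disc : aeval ζ Δ = 0
  pt : ∀ η, eval η Δ = 0 → ∃ j, j ≠ l ∧ eval η (g j) ≠ 0
  ideal : ∀ η i₀, i₀ ≠ l → eval η (g i₀) ≠ 0 → eval η Δ = 0 →
    mI η ^ T ≤ Ideal.span (hh g η i₀ '' {j | j ≠ l}) ⊔ Ideal.span {Δ} ⊔ mI η ^ (T + 1)

variable {k F κ : Type u} [Field k] [Field F] [Field κ] [Algebra k F] [Algebra F κ] [Algebra k κ]
  [IsScalarTower k F κ] {m n : ℕ}

theorem adjoin_top_of_gen {b : Fin m → F} (hb : IntermediateField.adjoin k (Set.range b) = ⊤)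
    {X : Fin n → κ} (N : IntermediateField k (IntermediateField.adjoin F (Set.range X)))
    (h1 : ∀ i, algebraMap F (IntermediateField.adjoin F (Set.range X)) (b i) ∈ N)
    (h2 : ∀ i, (⟨X i, IntermediateField.subset_adjoin _ _ ⟨i, rfl⟩⟩ :
      IntermediateField.adjoin F (Set.range X)) ∈ N) : N = ⊤ := by
  have h3 : ∀ y : F, algebraMap F (IntermediateField.adjoin F (Set.range X)) y ∈ N := by
    intro y
    have hy : y ∈ IntermediateField.adjoin k (Set.range b) := by rw [hb]; trivial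
    have h4 : IntermediateField.adjoin k (Set.range b) ≤
        N.comap (IsScalarTower.toAlgHom k F (IntermediateField.adjoin F (Set.range X))) := by
      rw [IntermediateField.adjoin_le_iff]
      rintro _ ⟨i, rfl⟩
      exact h1 i
    exact h4 hy
  rw [eq_top_iff]
  rintro ⟨y, hy⟩ -
  induction hy using IntermediateField.adjoin_induction with
  | mem x hx =>
    obtain ⟨i, rfl⟩ := hx
    exact h2 i
  | algebraMap x => exact h3 x
  | add x y hx hy h4 h5 => exact N.add_mem h4 h5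
  | inv x hx h4 => exact N.inv_mem h4
  | mul x y hx hy h4 h5 => exact N.mul_mem h4 h5

theorem frac_of_top {M : Type u} [Field M] [Algebra k M] {X : Fin n → M}
    (h : IntermediateField.adjoin k (Set.range X) = ⊤) (y : M) :
    ∃ a ∈ Algebra.adjoin k (Set.range X), ∃ b ∈ Algebra.adjoin k (Set.range X),
      b ≠ 0 ∧ y = a / b := by
  have hy : y ∈ IntermediateField.adjoin k (Set.range X) := by rw [h]; trivial
  obtain ⟨a, ha, b, hb, hab⟩ := IntermediateField.mem_adjoin_iff_div.1 hy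
  rcases eq_or_ne b 0 with rfl | hb0
  · exact ⟨0, Subalgebra.zero_mem _, 1, Subalgebra.one_mem _, one_ne_zero, by
      rw [hab, div_zero, zero_div]⟩
  · exact ⟨a, ha, b, hb, hb0, hab⟩

/-- Few transcendental elements. -/
theorem isAlgebraic_of_dep {M : Type u} [Field M] [Algebra k M] [Algebra F M]
    [IsScalarTower k F M] (hF : ((n : ℕ) : Cardinal) ≤ Algebra.trdeg k F + 1)
    {X : Fin n → M} (h : IntermediateField.adjoin k (Set.range X) = ⊤)
    {Δ : MvPolynomial (Fin n) k} (hΔ : Δ ≠ 0) (hX : aeval X Δ = 0) :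
    Algebra.IsAlgebraic F M := by
  have halg : Algebra.IsAlgebraic (Algebra.adjoin k (Set.range X)) M := by
    refine ⟨fun y => ?_⟩
    obtain ⟨a, ha, b, hb, hb0, rfl⟩ := frac_of_top h y
    rw [div_eq_mul_inv]
    exact IsAlgebraic.mul (isAlgebraic_algebraMap (⟨a, ha⟩ : Algebra.adjoin k (Set.range X)))
      (IsAlgebraic.inv (isAlgebraic_algebraMap (⟨b, hb⟩ : Algebra.adjoin k (Set.range X))))
  have hadd : Algebra.trdeg k F + Algebra.trdeg F M = Algebra.trdeg k M := trdeg_add_eq k F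
  have hlt : Algebra.trdeg k M < (n : Cardinal) := by
    by_contra hcon
    push Not at hcon
    have hb : IsTranscendenceBasis k X := by
      refine Algebra.IsAlgebraic.isTranscendenceBasis_of_lift_le_trdeg_of_finite k X ?_
      simpa using hcon
    exact hΔ ((injective_iff_map_eq_zero _).1 hb.1 Δ hX)
  rw [← trdeg_eq_zero_iff]
  rw [← hadd] at hlt
  have h1 : Algebra.trdeg k F + Algebra.trdeg F M < Algebra.trdeg k F + 1 := hlt.trans_le hF
  have h2 : Algebra.trdeg k F < Cardinal.aleph0 :=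
    (self_le_add_right _ _).trans_lt (hlt.trans (Cardinal.natCast_lt_aleph0))
  rw [Cardinal.add_lt_add_iff_of_left_lt_aleph0 h2] at h1
  exact Cardinal.lt_one_iff.1 h1

theorem ratios_top {M : Type u} [Field M] [Algebra k M] [Algebra F M] [IsScalarTower k F M]
    (N : IntermediateField k M) {X : Fin (n + 1) → M} {α β : Fin (n + 1)} (hα : X α = 1)
    (hβ : X β ≠ 0) (h : ∀ i, X (β.succAbove i) / X β ∈ N) (i : Fin (n + 1)) : X i ∈ N := by
  have h1 : ∀ i, X i / X β ∈ N := by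
    intro i
    induction i using Fin.succAboveCases β with
    | x => rw [div_self hβ]; exact N.one_mem
    | p i => exact h i
  have h2 : X i = (X i / X β) / (X α / X β) := by
    rw [hα]
    field_simp
  rw [h2]
  exact N.div_mem (h1 i) (h1 α)

theorem aeval_mem' {M : Type u} [Field M] [Algebra k M] (N : IntermediateField k M)
    {ζ : Fin n → M} (h : ∀ i, ζ i ∈ N) (q : MvPolynomial (Fin n) k) : aeval ζ q ∈ N := by
  have h1 : Algebra.adjoin k (Set.range ζ) ≤ N.toSubalgebra := by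
    refine Algebra.adjoin_le ?_
    rintro _ ⟨i, rfl⟩
    exact h i
  refine h1 ?_
  rw [Algebra.adjoin_range_eq_range_aeval]
  exact ⟨q, rfl⟩

/-- **The residue field of a bad prime divisor**, abstract form. -/
theorem res_main [IsAlgClosed k] {b : Fin m → F}
    (hb : IntermediateField.adjoin k (Set.range b) = ⊤)
    (hF : ((n : ℕ) : Cardinal) ≤ Algebra.trdeg k F + 1)
    {P : Submodule k F} (hPb : P = Submodule.span k (insert 1 (Set.range b)))
    {X γ : Fin (n + 1) → κ} {α i₀ l : Fin (n + 1)} {t T : ℕ} (hα : X α ≠ 0) (h0 : γ i₀ ≠ 0)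
    (hil : i₀ ≠ l) (hbγ : ∀ i, ∃ j, j ≠ l ∧ algebraMap F κ (b i) * γ i₀ = γ j)
    (hγb : ∀ j, j ≠ l → j ≠ i₀ → ∃ i, algebraMap F κ (b i) * γ i₀ = γ j)
    (hch : ∀ β, X β ≠ 0 → ∃ (g : Fin (n + 1) → MvPolynomial (Fin n) k)
      (Δ : MvPolynomial (Fin n) k),
      ResChart (fun i => X (β.succAbove i) / X β) γ (X β) l t T g Δ)
    (p : ℕ) [Fact p.Prime] [CharP k p] (hp : T ^ n < p) :
    ∃ M : IntermediateField F κ, γ l / γ i₀ ∈ M ∧ FiniteDimensional F M ∧
      Algebra.IsSeparable F M ∧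
      ∀ v₀ : ValuationSubring F, ZDim k v₀ → LDeg M v₀ (RV v₀ P) (T ^ n) := by
  classical
  obtain ⟨g, Δ, hg⟩ := hch α hα
  let ζ : Fin n → κ := fun i => X (α.succAbove i) / X α
  let M : IntermediateField F κ := IntermediateField.adjoin F (Set.range ζ)
  have hζ : ∀ i, ζ i ∈ M := fun i => IntermediateField.subset_adjoin _ _ ⟨i, rfl⟩
  let φ : M →ₐ[k] κ := M.val.restrictScalars k
  have hφ : Function.Injective φ := φ.injective
  have hφv : ∀ y : M, φ y = (y : κ) := fun y => rfl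
  have hX : ∀ i, X i / X α ∈ M := by
    intro i
    induction i using Fin.succAboveCases α with
    | x => rw [div_self hα]; exact M.one_mem
    | p i => exact hζ i
  have hγ : ∀ j, γ j / X α ^ (t + 1) ∈ M := by
    intro j
    have h1 := (aeval (fun i => (⟨ζ i, hζ i⟩ : M)) (g j) : M).2
    have h2 : ((aeval (fun i => (⟨ζ i, hζ i⟩ : M)) (g j) : M) : κ) = aeval ζ (g j) := by
      rw [← hφv, MvPolynomial.comp_aeval_apply]
      rfl
    rw [h2, hg.eq] at h1
    exact h1
  let XM : Fin (n + 1) → M := fun i => ⟨X i / X α, hX i⟩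
  let γM : Fin (n + 1) → M := fun j => ⟨γ j / X α ^ (t + 1), hγ j⟩
  have hXα : XM α = 1 := Subtype.ext (div_self hα)
  have hXM : ∀ β, XM β ≠ 0 ↔ X β ≠ 0 := by
    intro β
    rw [not_iff_not, Subtype.ext_iff]
    change X β / X α = 0 ↔ X β = 0
    rw [div_eq_zero_iff, or_iff_left hα]
  have hγ0 : γM i₀ ≠ 0 := by
    intro h
    have h1 : γ i₀ / X α ^ (t + 1) = 0 := congrArg Subtype.val h
    rw [div_eq_zero_iff, or_iff_left (pow_ne_zero _ hα)] at h1
    exact h0 h1
  have hev : ∀ β, X β ≠ 0 → ∀ q : MvPolynomial (Fin n) k,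
      φ (aeval (fun i => XM (β.succAbove i) / XM β) q) =
        aeval (fun i => X (β.succAbove i) / X β) q := by
    intro β hβ q
    rw [MvPolynomial.comp_aeval_apply]
    congr 2
    funext i
    rw [map_div₀]
    change X (β.succAbove i) / X α / (X β / X α) = _
    rw [div_div_div_cancel_right₀ hα]
  have hevγ : ∀ β (hβ : X β ≠ 0) (g : Fin (n + 1) → MvPolynomial (Fin n) k)
      (Δ : MvPolynomial (Fin n) k), ResChart (fun i => X (β.succAbove i) / X β) γ (X β) l t T g Δ →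
      ∀ j, aeval (fun i => XM (β.succAbove i) / XM β) (g j) = γM j / XM β ^ (t + 1) := by
    intro β hβ g Δ h j
    apply hφ
    rw [hev β hβ, h.eq, map_div₀, map_pow]
    change _ = γ j / X α ^ (t + 1) / (X β / X α) ^ (t + 1)
    rw [div_pow, div_div_div_cancel_right₀ (pow_ne_zero _ hα)]
  have hbγM : ∀ i, ∃ j, j ≠ l ∧ algebraMap F M (b i) * γM i₀ = γM j := by
    intro i
    obtain ⟨j, hj, hij⟩ := hbγ i
    refine ⟨j, hj, Subtype.ext ?_⟩
    change algebraMap F κ (b i) * (γ i₀ / X α ^ (t + 1)) = γ j / X α ^ (t + 1)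
    rw [← hij, mul_div_assoc]
  have hγbM : ∀ j, j ≠ l → j ≠ i₀ → ∃ i, algebraMap F M (b i) * γM i₀ = γM j := by
    intro j hj hj0
    obtain ⟨i, hij⟩ := hγb j hj hj0
    refine ⟨i, Subtype.ext ?_⟩
    change algebraMap F κ (b i) * (γ i₀ / X α ^ (t + 1)) = γ j / X α ^ (t + 1)
    rw [← hij, mul_div_assoc]
  have htop : ∀ β, X β ≠ 0 →
      IntermediateField.adjoin k (Set.range fun i => XM (β.succAbove i) / XM β) = ⊤ := by
    intro β hβ
    set N := IntermediateField.adjoin k (Set.range fun i => XM (β.succAbove i) / XM β) with hN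
    have h1 : ∀ i, XM i ∈ N := ratios_top (F := F) N hXα ((hXM β).2 hβ) fun i =>
      IntermediateField.subset_adjoin _ _ ⟨i, rfl⟩
    have h2 : ∀ j, γM j ∈ N := by
      intro j
      have h3 := hevγ α hα g Δ hg j
      rw [hXα, one_pow, div_one] at h3
      rw [← h3]
      refine aeval_mem' N (fun i => ?_) _
      rw [div_one]
      exact h1 _
    refine adjoin_top_of_gen (X := ζ) hb N (fun i => ?_) fun i => h1 _
    obtain ⟨j, -, hij⟩ := hbγM i
    have h4 : algebraMap F M (b i) = γM j / γM i₀ := by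
      rw [← hij, mul_div_cancel_right₀ _ hγ0]
    change algebraMap F M (b i) ∈ N
    rw [h4]
    exact N.div_mem (h2 _) (h2 _)
  have hch' : ∀ β, X β ≠ 0 → ∃ (g : Fin (n + 1) → MvPolynomial (Fin n) k)
      (Δ : MvPolynomial (Fin n) k),
      ResChart (fun i => XM (β.succAbove i) / XM β) γM (XM β) l t T g Δ := by
    intro β hβ
    obtain ⟨g, Δ, h⟩ := hch β hβ
    refine ⟨g, Δ, h.deg, hevγ β hβ g Δ h, h.ne, hφ ?_, h.pt, h.ideal⟩
    rw [hev β hβ, h.disc, map_zero]
  obtain ⟨g', Δ', hg'⟩ := hch' α hα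
  have halg : Algebra.IsAlgebraic F M := isAlgebraic_of_dep hF (htop α hα) hg'.ne hg'.disc
  have hfin : FiniteDimensional F M := by
    have hfr : Finite (Set.range ζ) := Set.finite_range ζ
    refine IntermediateField.finiteDimensional_adjoin fun x hx => ?_
    have h1 : IsAlgebraic F (⟨x, IntermediateField.subset_adjoin _ _ hx⟩ : M) :=
      Algebra.IsAlgebraic.isAlgebraic _
    exact (h1.algebraMap (A := κ)).isIntegral
  have hFG : (⊤ : IntermediateField k F).FG := by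
    rw [← hb]
    exact IntermediateField.fg_adjoin_of_finite (Set.finite_range b)
  have hPone : (1 : F) ∈ P := by
    rw [hPb]
    exact Submodule.subset_span (Set.mem_insert _ _)
  have hPbi : ∀ i, b i ∈ P := by
    intro i
    rw [hPb]
    exact Submodule.subset_span (Set.mem_insert_of_mem _ ⟨i, rfl⟩)
  have hP : IsModel P := by
    refine ⟨?_, fun h => one_ne_zero ((Submodule.mem_bot k).1 (h ▸ hPone))⟩
    rw [hPb]
    exact Submodule.fg_span ((Set.finite_range b).insert 1)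
  have hPf : Fin' P := by
    have h1 : IntermediateField.adjoin k {x : F | ∃ f ∈ P, ∃ g ∈ P, x = g / f} = ⊤ := by
      rw [eq_top_iff, ← hb, IntermediateField.adjoin_le_iff]
      rintro _ ⟨i, rfl⟩
      exact IntermediateField.subset_adjoin _ _ ⟨1, hPone, b i, hPbi i, (div_one _).symm⟩
    refine ⟨fun y => ?_⟩
    have h2 : y ∈ IntermediateField.adjoin k {x : F | ∃ f ∈ P, ∃ g ∈ P, x = g / f} := by
      rw [h1]
      trivial
    exact isAlgebraic_algebraMap (⟨y, h2⟩ :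
      IntermediateField.adjoin k {x : F | ∃ f ∈ P, ∃ g ∈ P, x = g / f})
  have hspan : Submodule.span k {γM i₀} * upm M P = Submodule.span k (γM '' {j | j ≠ l}) := by
    have h1 : upm M P = Submodule.span k (insert 1 (Set.range fun i => algebraMap F M (b i))) := by
      rw [upm, hPb, Submodule.map_span, Set.image_insert_eq, ← Set.range_comp]
      have h2 : (IsScalarTower.toAlgHom k F M).toLinearMap 1 = 1 :=
        map_one (IsScalarTower.toAlgHom k F M)
      rw [h2]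
      rfl
    rw [h1, Submodule.span_mul_span, Set.singleton_mul]
    apply le_antisymm
    · rw [Submodule.span_le]
      rintro _ ⟨y, hy, rfl⟩
      rcases Set.mem_insert_iff.1 hy with rfl | ⟨i, rfl⟩
      · exact Submodule.subset_span ⟨i₀, hil, (mul_one _).symm⟩
      · obtain ⟨j, hj, hij⟩ := hbγM i
        refine Submodule.subset_span ⟨j, hj, ?_⟩
        change γM j = γM i₀ * algebraMap F M (b i)
        rw [← hij, mul_comm]
    · rw [Submodule.span_le]
      rintro _ ⟨j, hj, rfl⟩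
      rcases eq_or_ne j i₀ with rfl | hj0
      · exact Submodule.subset_span ⟨1, Set.mem_insert _ _, mul_one _⟩
      · obtain ⟨i, hij⟩ := hγbM j hj hj0
        refine Submodule.subset_span ⟨_, Set.mem_insert_of_mem _ ⟨i, rfl⟩, ?_⟩
        change γM i₀ * algebraMap F M (b i) = γM j
        rw [← hij, mul_comm]
  have hPr : PrData k P XM γM (γM i₀) l t T := by
    refine ⟨⟨α, (hXM α).2 hα⟩, hγ0, fun j => ?_, hspan, fun β hβ => ?_, fun β hβ => ?_⟩
    · have h1 := aeval_mem_span_pow ((hXM α).2 hα) (hg'.deg j)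
      rwa [hg'.eq, div_mul_cancel₀ _ (pow_ne_zero _ ((hXM α).2 hα))] at h1
    · exact frac_of_top (htop β ((hXM β).1 hβ))
    · obtain ⟨g, Δ, h⟩ := hch' β ((hXM β).1 hβ)
      exact ⟨g, Δ, h.eq, h.disc, h.pt, h.ideal⟩
  refine ⟨M, ?_, hfin, hPr.sep p hp, fun v₀ hv => hPr.ldeg hFG hP hPf hv⟩
  have h1 : γ l / γ i₀ = ((γM l / γM i₀ : M) : κ) := by
    change _ = γ l / X α ^ (t + 1) / (γ i₀ / X α ^ (t + 1))
    rw [div_div_div_cancel_right₀ (pow_ne_zero _ hα)]
  rw [h1]
  exact (γM l / γM i₀ : M).2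

end Res

section Bad

variable {k K : Type u} [Field k] [Field K] [Algebra k K] {m n : ℕ}

theorem PB_eq (b : Fin m → K) : PB k b = Submodule.span k (insert 1 (Set.range fun i =>
    (⟨b i, IntermediateField.subset_adjoin _ _ ⟨i, rfl⟩⟩ : LB k b))) := by
  rw [PB, spn]
  have h1 : (insert 1 (Set.range b) : Set K) = (LB k b).val.toLinearMap ''
      (insert 1 (Set.range fun i =>
        (⟨b i, IntermediateField.subset_adjoin _ _ ⟨i, rfl⟩⟩ : LB k b))) := by
    rw [Set.image_insert_eq, ← Set.range_comp]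
    rfl
  rw [h1, ← Submodule.map_span]
  exact Submodule.comap_map_eq_of_injective (LB k b).val.injective _

theorem adjoin_LB_top (b : Fin m → K) : IntermediateField.adjoin k (Set.range fun i =>
    (⟨b i, IntermediateField.subset_adjoin _ _ ⟨i, rfl⟩⟩ : LB k b)) = ⊤ := by
  apply IntermediateField.map_injective (LB k b).val
  rw [IntermediateField.adjoin_map, ← Set.range_comp]
  ext x
  constructor
  · intro hx
    exact ⟨⟨x, hx⟩, trivial, rfl⟩
  · rintro ⟨y, -, rfl⟩
    exact y.2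

theorem le_trdeg_LB {b : Fin m → K} (hb : AlgebraicIndependent k b) :
    (m : Cardinal) ≤ Algebra.trdeg k (LB k b) := by
  have hb' : AlgebraicIndependent k (fun i : Fin m =>
      (⟨b i, IntermediateField.subset_adjoin _ _ ⟨i, rfl⟩⟩ : LB k b)) := by
    refine AlgebraicIndependent.of_comp (LB k b).val ?_
    exact hb
  have h1 := hb'.lift_cardinalMk_le_trdeg
  simpa using h1

theorem res_aeval {κ : Type u} [Field κ] [Algebra k κ] {v : ValuationSubring K} (hov : Ov k v)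
    (ρ : v →+* κ) (hρ : ∀ c : k, ρ ⟨algebraMap k K c, hov c⟩ = algebraMap k κ c) {ζ : Fin n → K}
    (hζ : ∀ i, ζ i ∈ v) (q : MvPolynomial (Fin n) k) :
    ∃ h : aeval ζ q ∈ v, ρ ⟨aeval ζ q, h⟩ = aeval (fun i => ρ ⟨ζ i, hζ i⟩) q := by
  induction q using MvPolynomial.induction_on with
  | C a =>
    have h1 : aeval ζ (MvPolynomial.C a) = algebraMap k K a := MvPolynomial.aeval_C _ _
    refine ⟨by rw [h1]; exact hov a, ?_⟩
    exact (congrArg ρ (Subtype.ext h1)).trans ((hρ a).trans (MvPolynomial.aeval_C _ _).symm)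
  | add p q hp hq =>
    obtain ⟨h1, h2⟩ := hp
    obtain ⟨h3, h4⟩ := hq
    refine ⟨by rw [map_add]; exact v.add_mem _ _ h1 h3, ?_⟩
    refine (congrArg ρ (Subtype.ext (map_add _ _ _) :
      (⟨aeval ζ (p + q), _⟩ : v) = ⟨aeval ζ p, h1⟩ + ⟨aeval ζ q, h3⟩)).trans ?_
    rw [map_add ρ, h2, h4, map_add]
  | mul_X p i hp =>
    obtain ⟨h1, h2⟩ := hp
    have h5 : aeval ζ (p * MvPolynomial.X i) = aeval ζ p * ζ i := by
      rw [map_mul, MvPolynomial.aeval_X]
    refine ⟨by rw [h5]; exact v.mul_mem _ _ h1 (hζ i), ?_⟩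
    refine (congrArg ρ (Subtype.ext h5 :
      (⟨aeval ζ (p * MvPolynomial.X i), _⟩ : v) = ⟨aeval ζ p, h1⟩ * ⟨ζ i, hζ i⟩)).trans ?_
    rw [map_mul ρ, h2, map_mul, MvPolynomial.aeval_X]

theorem res_aeval' {F κ : Type u} [Field F] [Algebra F K] [Field κ] [Algebra F κ]
    {v : ValuationSubring K} (hv : ∀ y : F, algebraMap F K y ∈ v)
    (ρ : v →+* κ) (hρ : ∀ y : F, ρ ⟨algebraMap F K y, hv y⟩ = algebraMap F κ y) {z : K}
    (hz : z ∈ v) (q : Polynomial F) :
    ∃ h : Polynomial.aeval z q ∈ v,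
      ρ ⟨Polynomial.aeval z q, h⟩ = Polynomial.aeval (ρ ⟨z, hz⟩) q := by
  induction q using Polynomial.induction_on' with
  | add p q hp hq =>
    obtain ⟨h1, h2⟩ := hp
    obtain ⟨h3, h4⟩ := hq
    refine ⟨by rw [map_add]; exact v.add_mem _ _ h1 h3, ?_⟩
    refine (congrArg ρ (Subtype.ext (map_add _ _ _) :
      (⟨Polynomial.aeval z (p + q), _⟩ : v) =
        ⟨Polynomial.aeval z p, h1⟩ + ⟨Polynomial.aeval z q, h3⟩)).trans ?_
    rw [map_add ρ, h2, h4, map_add]
  | monomial i a =>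
    have h5 : z ^ i ∈ v := pow_mem hz i
    refine ⟨by rw [Polynomial.aeval_monomial]; exact v.mul_mem _ _ (hv a) h5, ?_⟩
    refine (congrArg ρ (Subtype.ext (Polynomial.aeval_monomial _) :
      (⟨Polynomial.aeval z (Polynomial.monomial i a), _⟩ : v) =
        ⟨algebraMap F K a, hv a⟩ * ⟨z, hz⟩ ^ i)).trans ?_
    rw [map_mul ρ, map_pow ρ, hρ, Polynomial.aeval_monomial]

theorem exists_bad_aux [IsAlgClosed k] {b : Fin m → K} {z : K} {x Γ : Fin (n + 1) → K}
    {i₀ l : Fin (n + 1)} {t T : ℕ} (hm : m + 1 = n) (hb : AlgebraicIndependent k b)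
    (hil : i₀ ≠ l) (hbΓ : ∀ i, ∃ j, j ≠ l ∧ b i * Γ i₀ = Γ j)
    (hΓb : ∀ j, j ≠ l → j ≠ i₀ → ∃ i, b i * Γ i₀ = Γ j) (hz : z * Γ i₀ = Γ l)
    (hx : ∃ α, x α ≠ 0) {v : ValuationSubring K} (hv : ∀ y : LB k b, algebraMap (LB k b) K y ∈ v)
    (chart : ∀ α, x α ≠ 0 → (∀ i, x i / x α ∈ v) → ∃ (g : Fin (n + 1) → MvPolynomial (Fin n) k)
      (Δ : MvPolynomial (Fin n) k),
      ChartAt (fun i => x (α.succAbove i) / x α) v Γ (x α) l t T g Δ)
    (p : ℕ) [Fact p.Prime] [CharP k p] (hp : T ^ n < p)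
    (κ : Type u) [Field κ] [Algebra (LB k b) κ] [Algebra k κ] [IsScalarTower k (LB k b) κ]
    (ρ : v →+* κ) (hρ0 : ∀ y : v, ρ y = 0 ↔ v.valuation y < 1)
    (hρb : ∀ y : LB k b, ρ ⟨algebraMap (LB k b) K y, hv y⟩ = algebraMap (LB k b) κ y) :
    ∃ (M : Type u) (_ : Field M) (_ : Algebra (LB k b) M) (r : M),
      FiniteDimensional (LB k b) M ∧ Algebra.IsSeparable (LB k b) M ∧
      (∀ v₀ : ValuationSubring (LB k b), ZDim k v₀ → LDeg M v₀ (RV v₀ (PB k b)) (T ^ n)) ∧
      v.valuation (Polynomial.aeval z (minpoly (LB k b) r)) < 1 := by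
  classical
  have hov : Ov k v := fun c => hv (algebraMap k (LB k b) c)
  have hρk : ∀ c : k, ρ ⟨algebraMap k K c, hov c⟩ = algebraMap k κ c := by
    intro c
    rw [IsScalarTower.algebraMap_apply k (LB k b) κ, ← hρb]
    rfl
  have hρmul : ∀ {a b c : K} (ha : a ∈ v) (hb : b ∈ v) (hc : c ∈ v), a * b = c →
      ρ ⟨a, ha⟩ * ρ ⟨b, hb⟩ = ρ ⟨c, hc⟩ := by
    intro a b c ha hb hc h
    rw [← map_mul]
    exact congrArg ρ (Subtype.ext h)
  have hρpow : ∀ {a b : K} (ha : a ∈ v) (hb : b ∈ v) (s : ℕ), a ^ s = b →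
      ρ ⟨a, ha⟩ ^ s = ρ ⟨b, hb⟩ := by
    intro a b ha hb s h
    rw [← map_pow]
    exact congrArg ρ (Subtype.ext h)
  obtain ⟨α, hα⟩ := exists_min_coord (k := k) hov hx
  have hxα : x α ≠ 0 := hα.ne
  have hxv : ∀ i, x i / x α ∈ v := fun i => hα.div _ (Submodule.subset_span ⟨i, rfl⟩)
  obtain ⟨g, Δ, hg⟩ := chart α hxα hxv
  have hΓv : ∀ j, Γ j / x α ^ (t + 1) ∈ v := by
    intro j
    rw [← hg.eq]
    exact (res_aeval hov ρ hρk (fun i => hxv _) (g j)).1
  let X : Fin (n + 1) → κ := fun i => ρ ⟨x i / x α, hxv i⟩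
  let γ : Fin (n + 1) → κ := fun j => ρ ⟨Γ j / x α ^ (t + 1), hΓv j⟩
  have hXα : X α = 1 := by
    rw [← map_one ρ]
    exact congrArg ρ (Subtype.ext (div_self hxα))
  have hXα0 : X α ≠ 0 := by
    rw [hXα]
    exact one_ne_zero
  have hbγ : ∀ i j, b i * Γ i₀ = Γ j → algebraMap (LB k b) κ
      ⟨b i, IntermediateField.subset_adjoin _ _ ⟨i, rfl⟩⟩ * γ i₀ = γ j := by
    intro i j hij
    rw [← hρb]
    refine hρmul _ _ _ ?_
    change b i * (Γ i₀ / x α ^ (t + 1)) = Γ j / x α ^ (t + 1)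
    rw [← hij, mul_div_assoc]
  have hch : ∀ β, X β ≠ 0 → ∃ (g : Fin (n + 1) → MvPolynomial (Fin n) k)
      (Δ : MvPolynomial (Fin n) k),
      ResChart (fun i => X (β.succAbove i) / X β) γ (X β) l t T g Δ := by
    intro β hβ
    have hu : v.valuation (x β / x α) = 1 := by
      refine le_antisymm ((v.valuation_le_one_iff _).2 (hxv β)) (not_lt.1 fun h => hβ ?_)
      exact (hρ0 _).2 h
    have hxβ : x β ≠ 0 := by
      intro h
      rw [h, zero_div, map_zero] at hu
      exact zero_ne_one hu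
    have hinv : (x β / x α)⁻¹ ∈ v := by
      rw [← ValuationSubring.valuation_le_one_iff, map_inv₀, hu, inv_one]
    have hdiv : ∀ i, x i / x β = x i / x α * (x β / x α)⁻¹ := by
      intro i
      rw [inv_div]
      field_simp
    have hxvβ : ∀ i, x i / x β ∈ v := by
      intro i
      rw [hdiv]
      exact v.mul_mem _ _ (hxv i) hinv
    have hXβ : ∀ i, X i / X β = ρ ⟨x i / x β, hxvβ i⟩ := by
      intro i
      rw [div_eq_iff hβ]
      exact (hρmul _ _ _ (by field_simp)).symm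
    obtain ⟨g, Δ, h⟩ := chart β hxβ hxvβ
    have hfun : (fun i => X (β.succAbove i) / X β) =
        fun i => ρ ⟨x (β.succAbove i) / x β, hxvβ _⟩ := funext fun i => hXβ _
    refine ⟨g, Δ, h.deg, fun j => ?_, h.ne, ?_, h.pt, h.ideal⟩
    · obtain ⟨h1, h2⟩ := res_aeval hov ρ hρk (fun i => hxvβ (β.succAbove i)) (g j)
      rw [hfun, ← h2, eq_div_iff (pow_ne_zero _ hβ)]
      have h3 : (x β / x α) ^ (t + 1) ∈ v := v.pow_mem (hxv β) _
      rw [hρpow (hxv β) h3 (t + 1) rfl]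
      refine hρmul _ _ _ ?_
      rw [h.eq, div_pow]
      have := pow_ne_zero (t + 1) hxβ
      have := pow_ne_zero (t + 1) hxα
      field_simp
    · obtain ⟨h1, h2⟩ := res_aeval hov ρ hρk (fun i => hxvβ (β.succAbove i)) Δ
      rw [hfun, ← h2]
      exact (hρ0 _).2 h.disc
  have hγ0 : γ i₀ ≠ 0 := by
    obtain ⟨g, Δ, h⟩ := hch α hXα0
    obtain ⟨j, hj, hne⟩ := exists_ne_of_pt (S := {j | j ≠ l}) h.pt h.disc
    rw [h.eq, hXα, one_pow, div_one] at hne
    rcases eq_or_ne j i₀ with rfl | hj0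
    · exact hne
    · obtain ⟨i, hij⟩ := hΓb j hj hj0
      intro h1
      rw [← hbγ i j hij, h1, mul_zero] at hne
      exact hne rfl
  have hle : ((n : ℕ) : Cardinal) ≤ Algebra.trdeg k (LB k b) + 1 := by
    rw [← hm, Nat.cast_add, Nat.cast_one]
    exact add_le_add (le_trdeg_LB hb) le_rfl
  obtain ⟨M, hrM, hfin, hsep, hdeg⟩ := res_main (adjoin_LB_top b) hle (PB_eq b) hXα0 hγ0 hil
    (fun i => by
      obtain ⟨j, hj, hij⟩ := hbΓ i
      exact ⟨j, hj, hbγ i j hij⟩)
    (fun j hj hj0 => by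
      obtain ⟨i, hij⟩ := hΓb j hj hj0
      exact ⟨i, hbγ i j hij⟩) hch p hp
  refine ⟨M, inferInstance, inferInstance, ⟨γ l / γ i₀, hrM⟩, hfin, hsep, hdeg, ?_⟩
  have hui : v.valuation (Γ i₀ / x α ^ (t + 1)) = 1 := by
    refine le_antisymm ((v.valuation_le_one_iff _).2 (hΓv i₀)) (not_lt.1 fun h => hγ0 ?_)
    exact (hρ0 _).2 h
  have hΓ0 : Γ i₀ ≠ 0 := by
    intro h
    rw [h, zero_div, map_zero] at hui
    exact zero_ne_one hui
  have hzv : z ∈ v := by
    have h1 : z = Γ l / x α ^ (t + 1) * (Γ i₀ / x α ^ (t + 1))⁻¹ := by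
      rw [← hz, inv_div]
      have := pow_ne_zero (t + 1) hxα
      field_simp
    rw [h1]
    refine v.mul_mem _ _ (hΓv l) ?_
    rw [← ValuationSubring.valuation_le_one_iff, map_inv₀, hui, inv_one]
  have hρz : ρ ⟨z, hzv⟩ = γ l / γ i₀ := by
    rw [eq_div_iff hγ0]
    refine hρmul _ _ _ ?_
    rw [← hz, mul_div_assoc]
  obtain ⟨h1, h2⟩ := res_aeval' hv ρ hρb hzv (minpoly (LB k b) (⟨γ l / γ i₀, hrM⟩ : M))
  refine (hρ0 ⟨_, h1⟩).1 ?_
  rw [h2, hρz]
  have h3 := congrArg (algebraMap M κ) (minpoly.aeval (LB k b) (⟨γ l / γ i₀, hrM⟩ : M))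
  rw [map_zero, ← Polynomial.aeval_algebraMap_apply] at h3
  exact h3

/-- **ASM-c: the field `M` of a bad prime divisor.** -/
theorem exists_bad [IsAlgClosed k] {b : Fin m → K} {z : K} {x Γ : Fin (n + 1) → K}
    {i₀ l : Fin (n + 1)} {t T : ℕ} (hm : m + 1 = n) (hb : AlgebraicIndependent k b)
    (hil : i₀ ≠ l) (hbΓ : ∀ i, ∃ j, j ≠ l ∧ b i * Γ i₀ = Γ j)
    (hΓb : ∀ j, j ≠ l → j ≠ i₀ → ∃ i, b i * Γ i₀ = Γ j) (hz : z * Γ i₀ = Γ l)
    (hx : ∃ α, x α ≠ 0) {v : ValuationSubring K} (hv : ∀ y ∈ LB k b, y ∈ v)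
    (chart : ∀ α, x α ≠ 0 → (∀ i, x i / x α ∈ v) → ∃ (g : Fin (n + 1) → MvPolynomial (Fin n) k)
      (Δ : MvPolynomial (Fin n) k),
      ChartAt (fun i => x (α.succAbove i) / x α) v Γ (x α) l t T g Δ)
    (p : ℕ) [Fact p.Prime] [CharP k p] (hp : T ^ n < p) :
    ∃ (M : Type u) (_ : Field M) (_ : Algebra (LB k b) M) (r : M),
      FiniteDimensional (LB k b) M ∧ Algebra.IsSeparable (LB k b) M ∧
      (∀ v₀ : ValuationSubring (LB k b), ZDim k v₀ → LDeg M v₀ (RV v₀ (PB k b)) (T ^ n)) ∧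
      v.valuation (Polynomial.aeval z (minpoly (LB k b) r)) < 1 := by
  classical
  have hv' : ∀ y : LB k b, algebraMap (LB k b) K y ∈ v := fun y => hv y y.2
  let ψ : LB k b →+* v := RingHom.codRestrict (algebraMap (LB k b) K) v.toSubring hv'
  let ρ : v →+* IsLocalRing.ResidueField v := IsLocalRing.residue v
  let _ : Algebra (LB k b) (IsLocalRing.ResidueField v) := (ρ.comp ψ).toAlgebra
  let _ : Algebra k (IsLocalRing.ResidueField v) :=
    ((ρ.comp ψ).comp (algebraMap k (LB k b))).toAlgebra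
  have _ : IsScalarTower k (LB k b) (IsLocalRing.ResidueField v) :=
    IsScalarTower.of_algebraMap_eq fun _ => rfl
  refine exists_bad_aux hm hb hil hbΓ hΓb hz hx hv' chart p hp (IsLocalRing.ResidueField v) ρ
    (fun y => ?_) fun y => rfl
  rw [← ValuationSubring.valuation_lt_one_iff]
  exact IsLocalRing.residue_eq_zero_iff y

end Bad

end Pool.Agent.TG24
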