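import Pool.Agent.Lib.TG_h24.ResLen

/-!
# TANK G, ASM-c: local degrees and separability of a projection, global form
-/

set_option autoImplicit false

namespace Pool.Agent.TG24

open Pool.Agent.TG Pool.Agent.TG.Cnt Pool.Agent.TG77
open Pool.Agent.TG42 (mI hh)
open Pool.Agent.LU2 (locV le_locV locV_mono locV_le locV_inv locV_mem locV_locV)
open Module (finrank)

universe u

/-- A subvariety of `P^n` with function field `M` (homogeneous coordinates `X i`), forms of degree
`t` with values `γ j`, and the model `P` of `F`, proportional to the span of the `γ j`, `j ≠ l`;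
in the charts `X α ≠ 0` the bound of C3 holds at all points of the hypersurface `Δ = 0`, which
contains the subvariety. -/
structure PrData (k : Type u) {F M : Type u} [Field k] [Field F] [Field M] [Algebra k F]
    [Algebra F M] [Algebra k M] [IsScalarTower k F M] (P : Submodule k F) {n : ℕ}
    (X γ : Fin (n + 1) → M) (c : M) (l : Fin (n + 1)) (t T : ℕ) : Prop where
  ne : ∃ α, X α ≠ 0
  c_ne : c ≠ 0
  mem : ∀ j, γ j ∈ Submodule.span k (Set.range X) ^ (t + 1)
  span : Submodule.span k {c} * upm M P = Submodule.span k (γ '' {j | j ≠ l})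
  frac : ∀ α, X α ≠ 0 → ∀ x : M,
    ∃ a ∈ Algebra.adjoin k (Set.range fun i => X (α.succAbove i) / X α),
    ∃ b ∈ Algebra.adjoin k (Set.range fun i => X (α.succAbove i) / X α), b ≠ 0 ∧ x = a / b
  chart : ∀ α, X α ≠ 0 → ∃ (g : Fin (n + 1) → MvPolynomial (Fin n) k)
    (Δ : MvPolynomial (Fin n) k),
    (∀ j, MvPolynomial.aeval (fun i => X (α.succAbove i) / X α) (g j) = γ j / X α ^ (t + 1)) ∧
    MvPolynomial.aeval (fun i => X (α.succAbove i) / X α) Δ = 0 ∧
    (∀ η, MvPolynomial.eval η Δ = 0 → ∃ j, j ≠ l ∧ MvPolynomial.eval η (g j) ≠ 0) ∧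
    ∀ η i₀, i₀ ≠ l → MvPolynomial.eval η (g i₀) ≠ 0 → MvPolynomial.eval η Δ = 0 →
      mI η ^ T ≤ Ideal.span (hh g η i₀ '' {j | j ≠ l}) ⊔ Ideal.span {Δ} ⊔ mI η ^ (T + 1)

section Main

variable {k F M : Type u} [Field k] [Field F] [Field M] [Algebra k F] [Algebra F M] [Algebra k M]
  [IsScalarTower k F M] {P : Submodule k F} {n : ℕ} {X γ : Fin (n + 1) → M} {c : M}
  {l : Fin (n + 1)} {t T : ℕ}

theorem isModel_span_range (h : ∃ α, X α ≠ 0) :
    IsModel (Submodule.span k (Set.range X)) := by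
  obtain ⟨α, hα⟩ := h
  refine ⟨Submodule.fg_span (Set.finite_range X), fun h0 => hα ?_⟩
  have h1 : X α ∈ Submodule.span k (Set.range X) := Submodule.subset_span ⟨α, rfl⟩
  rw [h0, Submodule.mem_bot] at h1
  exact h1

theorem exists_min_coord {W : ValuationSubring M} (hW : Ov k W) (h : ∃ α, X α ≠ 0) :
    ∃ α, IsMin W (Submodule.span k (Set.range X)) (X α) := by
  classical
  obtain ⟨α, hα⟩ := h
  obtain ⟨f, hf, hmin⟩ := exists_isMin_mem (k := k) hW (Finset.univ.image X)
    ⟨X α, Finset.mem_image_of_mem _ (Finset.mem_univ _), hα⟩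
  obtain ⟨β, -, rfl⟩ := Finset.mem_image.1 hf
  refine ⟨β, ?_⟩
  rwa [Finset.coe_image, Finset.coe_univ, Set.image_univ] at hmin

theorem ch_coord {α : Fin (n + 1)} (hα : X α ≠ 0) :
    ch (Submodule.span k (Set.range X)) (X α) =
      Algebra.adjoin k (Set.range fun i => X (α.succAbove i) / X α) := by
  refine le_antisymm (ch_le_iff.2 fun g hg => ?_) (Algebra.adjoin_le ?_)
  · induction hg using Submodule.span_induction with
    | mem x hx =>
      obtain ⟨j, rfl⟩ := hx
      induction j using Fin.succAboveCases α with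
      | x => rw [div_self hα]; exact Subalgebra.one_mem _
      | p i => exact Algebra.subset_adjoin ⟨i, rfl⟩
    | zero => rw [zero_div]; exact Subalgebra.zero_mem _
    | add x y _ _ hx hy => rw [add_div]; exact Subalgebra.add_mem _ hx hy
    | smul a x _ hx => rw [smul_div_assoc]; exact Subalgebra.smul_mem _ hx a
  · rintro _ ⟨i, rfl⟩
    exact div_mem_ch (Submodule.subset_span ⟨_, rfl⟩)

/-- The point in a chart. -/
theorem exists_point {W : ValuationSubring M} (hW : ZDim k W) {α : Fin (n + 1)}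
    (hα : IsMin W (Submodule.span k (Set.range X)) (X α)) :
    ∃ η : Fin n → k, ∀ i, W.valuation (X (α.succAbove i) / X α - algebraMap k M (η i)) < 1 := by
  have h1 : ∀ i, ∃ c : k, W.valuation (X (α.succAbove i) / X α - algebraMap k M c) < 1 :=
    fun i => hW.res _ (hα.div _ (Submodule.subset_span ⟨_, rfl⟩))
  choose η hη using h1
  exact ⟨η, hη⟩

theorem PrData.bpf [IsAlgClosed k] (H : PrData k P X γ c l t T) :
    Bpf (Submodule.span k (Set.range X) ^ (t + 1)) (Submodule.span k (γ '' {j | j ≠ l})) := by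
  refine ⟨Submodule.span_le.2 ?_, fun V hV => ?_⟩
  · rintro _ ⟨j, -, rfl⟩
    exact H.mem j
  · obtain ⟨W, hle, hW⟩ := exists_zdim_le hV
    obtain ⟨α, hα⟩ := exists_min_coord hW.ov H.ne
    obtain ⟨η, hη⟩ := exists_point hW hα
    obtain ⟨g, Δ, h1, h2, h3, -⟩ := H.chart α hα.ne
    obtain ⟨j, hj, hj0⟩ := h3 η (eval_eq_zero hW.ov hη h2)
    have h4 := aeval_unit hW.ov hη hj0
    rw [h1] at h4
    have h5 : IsMin W (Submodule.span k (Set.range X) ^ (t + 1)) (γ j) :=
      (hα.pow hW.ov (t + 1)).of_val (H.mem j) h4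
    exact ⟨γ j, Submodule.subset_span ⟨j, hj, rfl⟩, h5.of_le hle⟩

/-- The lengths at all points. -/
theorem PrData.len (H : PrData k P X γ c l t T) {W : ValuationSubring M} (hW : ZDim k W)
    {α : Fin (n + 1)} (hα : IsMin W (Submodule.span k (Set.range X)) (X α))
    (O : Subalgebra k M) (hO : O = RV W (Submodule.span k (Set.range X))) :
    ∃ (r : ℕ) (h : Fin r → F) (hh : ∀ i, algebraMap F M (h i) ∈ O),
      (∀ i, W.valuation (algebraMap F M (h i)) < 1) ∧
      FiniteDimensional k (O ⧸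
        Ideal.span (Set.range fun i => (⟨algebraMap F M (h i), hh i⟩ : O))) ∧
      finrank k (O ⧸
        Ideal.span (Set.range fun i => (⟨algebraMap F M (h i), hh i⟩ : O))) ≤ T ^ n := by
  obtain ⟨η, hη⟩ := exists_point hW hα
  obtain ⟨g, Δ, h1, h2, h3, h4⟩ := H.chart α hα.ne
  have hΔ := eval_eq_zero hW.ov hη h2
  obtain ⟨i₀, hi₀, h0⟩ := h3 η hΔ
  have hγ : ∀ j, j ≠ l → ∃ f : F, c * algebraMap F M f = γ j := by
    intro j hj
    have h5 : γ j ∈ Submodule.span k {c} * upm M P := by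
      rw [H.span]
      exact Submodule.subset_span ⟨j, hj, rfl⟩
    obtain ⟨z, hz, hcz⟩ := Submodule.mem_span_singleton_mul.1 h5
    obtain ⟨f, -, rfl⟩ := mem_upm.1 hz
    exact ⟨f, hcz⟩
  choose! f hf using hγ
  have hu := aeval_unit hW.ov hη h0
  have hγ0 : γ i₀ ≠ 0 := by
    intro h5
    rw [h1, h5, zero_div, map_zero] at hu
    exact zero_ne_one hu
  have hf0 : algebraMap F M (f i₀) ≠ 0 := by
    intro h5
    rw [← hf i₀ hi₀, h5, mul_zero] at hγ0
    exact hγ0 rfl
  refine len_chart (F := F) hW (isModel_span_range H.ne) hα (ch_coord hα.ne) hη h0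
    (h4 η i₀ hi₀ h0 hΔ) h2 (fun j => f j / f i₀) (fun j hj => ?_) O hO
  rw [h1, h1, map_div₀, ← hf j hj, ← hf i₀ hi₀]
  have := H.c_ne
  field_simp

/-- **Local degrees.** -/
theorem PrData.ldeg [IsAlgClosed k] (H : PrData k P X γ c l t T)
    (hF : (⊤ : IntermediateField k F).FG) (hP : IsModel P) (hPf : Fin' P)
    [Algebra.IsAlgebraic F M] {v₀ : ValuationSubring F} (hv : ZDim k v₀) :
    LDeg M v₀ (RV v₀ P) (T ^ n) := by
  refine ldeg_of_len hF hv hP hPf fun W hWv => ?_
  have hW : ZDim k W := zdim_up (F := F) (by rw [hWv]; exact hv)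
  obtain ⟨α, hα⟩ := exists_min_coord hW.ov H.ne
  have hL := isModel_span_range (k := k) H.ne
  obtain ⟨r, h, hh, h1, h2, h3⟩ := H.len hW hα _ rfl
  have hsc : IsModel (Submodule.span k {c} * upm M P) := by
    refine IsModel.mul ⟨⟨{c}, by simp⟩, fun h0 => H.c_ne ?_⟩ hP.upm
    exact Submodule.span_singleton_eq_bot.1 h0
  refine ⟨_, r, h, hh, ?_, fun x => ?_, h1, h2, h3⟩
  · rw [← NV_scale hW.ov hP.upm H.c_ne]
    refine RV_le_NV_of_bpf hW.ov hL hsc (e := t) ?_
    rw [H.span]
    exact H.bpf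
  · obtain ⟨a, ha, b, hb, hb0, hx⟩ := H.frac α hα.ne x
    rw [← ch_coord hα.ne] at ha hb
    have hle : ch (Submodule.span k (Set.range X)) (X α) ≤
        RV W (Submodule.span k (Set.range X)) := by
      rw [RV_eq hα]
      exact le_locV _
    exact ⟨a, hle ha, b, hle hb, hb0, hx⟩

/-- **Separability.** -/
theorem PrData.sep [IsAlgClosed k] (H : PrData k P X γ c l t T) (p : ℕ) [Fact p.Prime]
    [CharP k p] [FiniteDimensional F M] (hT : T ^ n < p) : Algebra.IsSeparable F M := by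
  obtain ⟨α, hα⟩ := H.ne
  have hL := isModel_span_range (k := k) H.ne
  refine sep_of_len p (ch (Submodule.span k (Set.range X)) (X α)) (ch_fg hL.fg) (fun x => ?_)
    fun W hW hAW => ?_
  · obtain ⟨a, ha, b, hb, hb0, hx⟩ := H.frac α hα x
    rw [← ch_coord hα] at ha hb
    exact ⟨a, ha, b, hb, hb0, hx⟩
  · have hmin : IsMin W (Submodule.span k (Set.range X)) (X α) :=
      (isMin_iff_ch (Submodule.subset_span (Set.mem_range_self α)) hα hW.ov).2 hAW
    obtain ⟨r, h, hh, h1, h2, h3⟩ := H.len hW hmin _ (RV_eq hmin).symm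
    exact ⟨r, h, hh, h1, h2, h3.trans_lt hT⟩

end Main

end Pool.Agent.TG24
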