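import Pool.Agent.Lib.TG.Basic
import Pool.Agent.Lib.TG_h3.Chart

/-!
# TANK G: separability from lengths

If `M / F` is not separable then it has a nonzero derivation `δ`, and at most points the length of
`O / (h)` (`h` in `F`) is at least `p`: there is `a` in the maximal ideal with `δ a` a unit, and
`1, a, .., a ^ (p - 1)` are linearly independent modulo `(h)`.
-/

set_option autoImplicit false

namespace Pool.Agent.TG24

open Pool.Agent.TG
open Pool.Agent.LU2 (locV le_locV locV_mono locV_le locV_inv locV_mem locV_locV)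
open Module (finrank)

universe u

section Nil

variable {k R : Type*} [Field k] [CommRing R] [Algebra k R]

/-- A quotient of dimension at most `n` of a local `k`-algebra with an element `a` of the maximal
ideal contains a relation `a ^ j = 0`, `j ≤ n`. -/
theorem exists_pow_mem [IsLocalRing R] (I : Ideal R) [FiniteDimensional k (R ⧸ I)] {a : R}
    (ha : a ∈ IsLocalRing.maximalIdeal R) : ∃ j ≤ finrank k (R ⧸ I), a ^ j ∈ I := by
  classical
  have hdep : ¬ LinearIndependent k
      (fun j : Fin (finrank k (R ⧸ I) + 1) => (Ideal.Quotient.mk I (a ^ (j : ℕ)))) := by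
    intro h
    have := h.fintype_card_le_finrank
    rw [Fintype.card_fin] at this
    omega
  rw [Fintype.linearIndependent_iff] at hdep
  push Not at hdep
  obtain ⟨c, hc, i, hi⟩ := hdep
  let S : Finset (Fin (finrank k (R ⧸ I) + 1)) := Finset.univ.filter fun j => c j ≠ 0
  have hS : S.Nonempty := ⟨i, Finset.mem_filter.2 ⟨Finset.mem_univ _, hi⟩⟩
  let j₀ := S.min' hS
  have hj₀ : c j₀ ≠ 0 := (Finset.mem_filter.1 (S.min'_mem hS)).2
  have hmin : ∀ j, c j ≠ 0 → j₀ ≤ j := fun j hj =>
    S.min'_le j (Finset.mem_filter.2 ⟨Finset.mem_univ _, hj⟩)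
  refine ⟨j₀, by have := j₀.2; omega, ?_⟩
  have h1 : ∑ j, algebraMap k R (c j) * a ^ (j : ℕ) ∈ I := by
    rw [← Ideal.Quotient.eq_zero_iff_mem, map_sum, ← hc]
    refine Finset.sum_congr rfl fun j _ => ?_
    rw [map_mul, Algebra.smul_def]
    rfl
  let u : R := ∑ j, algebraMap k R (c j) * a ^ ((j : ℕ) - j₀)
  have h2 : ∑ j, algebraMap k R (c j) * a ^ (j : ℕ) = u * a ^ (j₀ : ℕ) := by
    rw [Finset.sum_mul]
    refine Finset.sum_congr rfl fun j _ => ?_
    by_cases hj : c j = 0
    · rw [hj, map_zero, zero_mul, zero_mul, zero_mul]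
    · have h3 : (j₀ : ℕ) ≤ j := hmin j hj
      rw [mul_assoc, ← pow_add, Nat.sub_add_cancel h3]
  have h3 : IsUnit u := by
    have h4 : u = algebraMap k R (c j₀) +
        ∑ j ∈ Finset.univ.erase j₀, algebraMap k R (c j) * a ^ ((j : ℕ) - j₀) := by
      have h5 := Finset.add_sum_erase Finset.univ
        (fun j : Fin (finrank k (R ⧸ I) + 1) => algebraMap k R (c j) * a ^ ((j : ℕ) - j₀))
        (Finset.mem_univ j₀)
      rw [Nat.sub_self, pow_zero, mul_one] at h5
      exact h5.symm
    have h5 : ∑ j ∈ Finset.univ.erase j₀, algebraMap k R (c j) * a ^ ((j : ℕ) - j₀) ∈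
        IsLocalRing.maximalIdeal R := by
      refine Ideal.sum_mem _ fun j hj => ?_
      by_cases hcj : c j = 0
      · rw [hcj, map_zero, zero_mul]
        exact Ideal.zero_mem _
      · have h6 : j₀ ≤ j := hmin j hcj
        have h7 : j ≠ j₀ := (Finset.mem_erase.1 hj).1
        have h8 : (j₀ : ℕ) < j := lt_of_le_of_ne h6 fun h => h7 (Fin.ext h).symm
        refine Ideal.mul_mem_left _ _ (Ideal.pow_mem_of_mem _ ha _ (by omega))
    by_contra hu
    have h6 : u ∈ IsLocalRing.maximalIdeal R := (IsLocalRing.mem_maximalIdeal _).2 hu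
    rw [h4] at h6
    have h7 := (Ideal.add_mem_iff_left _ h5).1 h6
    rw [IsLocalRing.mem_maximalIdeal] at h7
    exact h7 ((isUnit_iff_ne_zero.2 hj₀).map (algebraMap k R))
  rw [h2] at h1
  exact (Ideal.unit_mul_mem_iff_mem I h3).1 h1

/-- A derivation which preserves the ideal `I` and is a unit at `a`: `a ^ j` is in `I` only if
`I` is everything (`j < p`). -/
theorem one_mem_of_pow_mem {p : ℕ} [Fact p.Prime] [CharP k p] (d : Derivation k R R) (I : Ideal R)
    (hI : ∀ x ∈ I, d x ∈ I) {a : R} (hu : IsUnit (d a)) {j : ℕ} (hj : j < p) (h : a ^ j ∈ I) :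
    (1 : R) ∈ I := by
  induction j with
  | zero => rwa [pow_zero] at h
  | succ j ih =>
    refine ih (by omega) ?_
    have h1 := hI _ h
    rw [Derivation.leibniz_pow, Nat.add_sub_cancel] at h1
    have h2 : (j + 1) • a ^ j • d a = (algebraMap k R ((j + 1 : ℕ) : k) * d a) * a ^ j := by
      rw [nsmul_eq_mul, smul_eq_mul, map_natCast]
      ring
    rw [h2] at h1
    have h3 : ((j + 1 : ℕ) : k) ≠ 0 := by
      intro h0
      rw [CharP.cast_eq_zero_iff k p] at h0
      have := Nat.le_of_dvd (Nat.succ_pos j) h0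
      omega
    exact (Ideal.unit_mul_mem_iff_mem I
      (((isUnit_iff_ne_zero.2 h3).map (algebraMap k R)).mul hu)).1 h1

end Nil

section Sep

variable {k F M : Type u} [Field k] [Field F] [Field M] [Algebra k F] [Algebra F M] [Algebra k M]
  [IsScalarTower k F M]

/-- A derivation of `M` which preserves `A` preserves its localisations. -/
theorem locV_derivation {W : ValuationSubring M} {A : Subalgebra k M} (d : Derivation k M M)
    (hd : ∀ a ∈ A, d a ∈ A) : ∀ a ∈ locV W A, d a ∈ locV W A := by
  rintro _ ⟨a, ha, b, hb, hvb, rfl⟩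
  have hb0 : b ≠ 0 := by
    rintro rfl
    rw [map_zero] at hvb
    exact zero_ne_one hvb
  rw [Derivation.leibniz_div]
  refine ⟨b * d a - a * d b, A.sub_mem (A.mul_mem hb (hd a ha)) (A.mul_mem ha (hd b hb)), b ^ 2,
    A.pow_mem hb 2, by rw [map_pow, hvb, one_pow], ?_⟩
  rw [smul_eq_mul, smul_eq_mul, smul_eq_mul]
  field_simp

/-- The restriction of a derivation. -/
def resDer (O : Subalgebra k M) (d : Derivation k M M) (hd : ∀ a ∈ O, d a ∈ O) :
    Derivation k O O where
  toFun := fun a => ⟨d a, hd a a.2⟩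
  map_add' := fun a b => Subtype.ext (by
    change d ((a : M) + b) = d a + d b
    rw [map_add])
  map_smul' := fun c a => Subtype.ext (by
    change d (c • (a : M)) = c • d a
    rw [Derivation.map_smul])
  map_one_eq_zero' := Subtype.ext (by
    change d (1 : M) = 0
    exact Derivation.map_one_eq_zero d)
  leibniz' := fun a b => Subtype.ext (by
    change d ((a : M) * b) = a * d b + b * d a
    rw [Derivation.leibniz]
    rfl)

/-- **Separability from lengths.**  At every zero-dimensional valuation ring `W ⊇ A` the local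
ring `locV W A` has elements `h` of `F` with `length O / (h) < p`. -/
theorem sep_of_len [IsAlgClosed k] (p : ℕ) [Fact p.Prime] [CharP k p] [FiniteDimensional F M]
    (A : Subalgebra k M) (hA : A.FG) (hfr : ∀ x : M, ∃ a ∈ A, ∃ b ∈ A, b ≠ 0 ∧ x = a / b)
    (hlen : ∀ W : ValuationSubring M, ZDim k W → (∀ a ∈ A, a ∈ W) →
      ∃ (r : ℕ) (h : Fin r → F) (hh : ∀ i, algebraMap F M (h i) ∈ locV W A),
        (∀ i, W.valuation (algebraMap F M (h i)) < 1) ∧
        FiniteDimensional k (locV W A ⧸
          Ideal.span (Set.range fun i => (⟨algebraMap F M (h i), hh i⟩ : locV W A))) ∧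
        finrank k (locV W A ⧸
          Ideal.span (Set.range fun i => (⟨algebraMap F M (h i), hh i⟩ : locV W A))) < p) :
    Algebra.IsSeparable F M := by
  classical
  rw [← Algebra.FormallyUnramified.iff_isSeparable]
  -- every derivation is zero
  have hder : ∀ d : Derivation F M M, d = 0 := by
    intro d
    by_contra hd
    -- common denominator
    obtain ⟨S, hS⟩ := hA
    have hden : ∃ s ∈ A, s ≠ 0 ∧ ∀ x ∈ S, s * d x ∈ A := by
      have key : ∀ T : Finset M, ∃ s ∈ A, s ≠ 0 ∧ ∀ x ∈ T, s * d x ∈ A := by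
        intro T
        induction T using Finset.induction_on with
        | empty => exact ⟨1, A.one_mem, one_ne_zero, fun x hx => absurd hx (Finset.notMem_empty x)⟩
        | insert y T hy ih =>
          obtain ⟨s, hs, hs0, hst⟩ := ih
          obtain ⟨a, ha, b, hb, hb0, hab⟩ := hfr (d y)
          refine ⟨s * b, A.mul_mem hs hb, mul_ne_zero hs0 hb0, fun x hx => ?_⟩
          rcases Finset.mem_insert.1 hx with rfl | hx
          · rw [hab, show s * b * (a / b) = s * a by field_simp]
            exact A.mul_mem hs ha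
          · rw [show s * b * d x = b * (s * d x) by ring]
            exact A.mul_mem hb (hst x hx)
      exact key S
    obtain ⟨s, hs, hs0, hsS⟩ := hden
    let d' : Derivation k M M := s • d.restrictScalars k
    have hd'a : ∀ x, d' x = s * d x := fun x => rfl
    have hd'A : ∀ a ∈ A, d' a ∈ A := by
      intro a ha
      rw [← hS] at ha
      induction ha using Algebra.adjoin_induction with
      | mem x hx => exact hsS x hx
      | algebraMap c => rw [Derivation.map_algebraMap]; exact A.zero_mem
      | add x y _ _ hx hy => rw [map_add]; exact A.add_mem hx hy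
      | mul x y hx' hy' hx hy =>
        rw [Derivation.leibniz]
        rw [hS] at hx' hy'
        exact A.add_mem (A.mul_mem hx' hy) (A.mul_mem hy' hx)
    -- an element of `A` with `d' a₀ ≠ 0`
    have hex : ∃ a₀ ∈ A, d' a₀ ≠ 0 := by
      by_contra hcon
      push Not at hcon
      refine hd (Derivation.ext fun x => ?_)
      obtain ⟨a, ha, b, hb, hb0, rfl⟩ := hfr x
      have h1 : ∀ y ∈ A, d y = 0 := fun y hy => by
        have := hcon y hy
        rw [hd'a] at this
        exact (mul_eq_zero.1 this).resolve_left hs0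
      rw [Derivation.leibniz_div, h1 a ha, h1 b hb]
      simp
    obtain ⟨a₀, ha₀, hg0⟩ := hex
    -- the valuation ring
    have hfg : (A ⊔ Algebra.adjoin k {(d' a₀)⁻¹}).FG :=
      Subalgebra.FG.sup ⟨S, hS⟩ (Subalgebra.fg_def.2 ⟨_, Set.finite_singleton _, rfl⟩)
    obtain ⟨W, hW, hAW⟩ := TGD.exists_zdim_ch _ hfg
    have hA' : ∀ a ∈ A, a ∈ W := fun a ha => hAW a ((le_sup_left : A ≤ _) ha)
    have hg1 : W.valuation (d' a₀) = 1 := by
      refine le_antisymm ((W.valuation_le_one_iff _).2 (hA' _ (hd'A _ ha₀))) ?_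
      have h1 : W.valuation (d' a₀)⁻¹ ≤ 1 := (W.valuation_le_one_iff _).2 (hAW _
        ((le_sup_right : Algebra.adjoin k {(d' a₀)⁻¹} ≤ _) (Algebra.subset_adjoin rfl)))
      rw [map_inv₀] at h1
      exact (inv_le_one₀ ((Valuation.pos_iff _).2 hg0)).1 h1
    obtain ⟨r, h, hh, hpos, hfd, hlt⟩ := hlen W hW hA'
    obtain ⟨c, hc⟩ := hW.res a₀ (hA' _ ha₀)
    have hOW : ∀ a ∈ locV W A, a ∈ W := locV_mem hA'
    have hOi : ∀ f ∈ locV W A, W.valuation f = 1 → f⁻¹ ∈ locV W A := fun _ hf h1 => locV_inv hf h1
    have hunit : ∀ x : locV W A, W.valuation (x : M) = 1 → IsUnit x := by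
      intro x hx
      have hx0 : (x : M) ≠ 0 := by
        intro h0
        rw [h0, map_zero] at hx
        exact zero_ne_one hx
      exact IsUnit.of_mul_eq_one ⟨(x : M)⁻¹, hOi _ x.2 hx⟩ (Subtype.ext (mul_inv_cancel₀ hx0))
    have hnunit : ∀ x : locV W A, W.valuation (x : M) < 1 → ¬ IsUnit x := by
      intro x hx hxu
      obtain ⟨y, hy⟩ := hxu.exists_right_inv
      have h1 : W.valuation ((x : M) * y) < 1 := by
        rw [map_mul]
        exact (mul_le_of_le_one_right zero_le
          ((W.valuation_le_one_iff _).2 (hOW _ y.2))).trans_lt hx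
      have h2 : (x : M) * y = 1 := congrArg Subtype.val hy
      rw [h2, map_one] at h1
      exact lt_irrefl _ h1
    have hloc : IsLocalRing (locV W A) := by
      refine IsLocalRing.of_nonunits_add fun x y hx hy => ?_
      have h1 : ∀ z : locV W A, z ∈ nonunits (locV W A) → W.valuation (z : M) < 1 := fun z hz =>
        lt_of_le_of_ne ((W.valuation_le_one_iff _).2 (hOW _ z.2)) fun h => hz (hunit z h)
      exact hnunit _ (Valuation.map_add_lt _ (h1 x hx) (h1 y hy))
    let D : Derivation k (locV W A) (locV W A) := resDer _ d' (locV_derivation d' hd'A)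
    let a : locV W A := ⟨a₀ - algebraMap k M c, Subalgebra.sub_mem _ (le_locV _ ha₀)
      (Subalgebra.algebraMap_mem _ c)⟩
    have hDa : IsUnit (D a) := by
      refine hunit _ ?_
      change W.valuation (d' (a₀ - algebraMap k M c)) = 1
      rw [map_sub, Derivation.map_algebraMap, sub_zero]
      exact hg1
    have hmem : a ∈ IsLocalRing.maximalIdeal (locV W A) :=
      (IsLocalRing.mem_maximalIdeal _).2 (hnunit _ hc)
    obtain ⟨j, hj, hjI⟩ := exists_pow_mem (k := k)
      (Ideal.span (Set.range fun i => (⟨algebraMap F M (h i), hh i⟩ : locV W A))) hmem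
    have hI : ∀ x ∈ Ideal.span (Set.range fun i => (⟨algebraMap F M (h i), hh i⟩ : locV W A)),
        D x ∈ Ideal.span (Set.range fun i => (⟨algebraMap F M (h i), hh i⟩ : locV W A)) := by
      intro x hx
      induction hx using Submodule.span_induction with
      | mem x hx =>
        obtain ⟨i, rfl⟩ := hx
        have h1 : D (⟨algebraMap F M (h i), hh i⟩ : locV W A) = 0 := by
          apply Subtype.ext
          change s * d (algebraMap F M (h i)) = 0
          rw [Derivation.map_algebraMap, mul_zero]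
        rw [h1]
        exact Ideal.zero_mem _
      | zero => rw [map_zero]; exact Ideal.zero_mem _
      | add x y _ _ hx hy => rw [map_add]; exact Ideal.add_mem _ hx hy
      | smul b x hx' hx =>
        rw [smul_eq_mul, Derivation.leibniz]
        refine Ideal.add_mem _ (Ideal.mul_mem_left _ _ hx) ?_
        rw [smul_eq_mul]
        exact Ideal.mul_mem_right _ _ hx'
    have h1 := one_mem_of_pow_mem (p := p) D _ hI hDa (hj.trans_lt hlt) hjI
    have h2 : Ideal.span (Set.range fun i => (⟨algebraMap F M (h i), hh i⟩ : locV W A)) ≤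
        IsLocalRing.maximalIdeal (locV W A) := by
      rw [Ideal.span_le]
      rintro _ ⟨i, rfl⟩
      exact (IsLocalRing.mem_maximalIdeal _).2 (hnunit _ (hpos i))
    exact (Ideal.ne_top_iff_one _).1 (IsLocalRing.maximalIdeal.isMaximal _).ne_top (h2 h1)
  refine ⟨?_⟩
  -- `Ω = 0`
  by_contra hns
  rw [not_subsingleton_iff_nontrivial] at hns
  obtain ⟨x, hx⟩ := exists_ne (0 : Ω[M⁄F])
  refine hx ((Module.forall_dual_apply_eq_zero_iff M x).1 fun φ => ?_)
  have h1 : KaehlerDifferential.linearMapEquivDerivation F M φ = 0 := hder _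
  have h2 : φ = 0 := (LinearEquiv.map_eq_zero_iff _).1 h1
  rw [h2, LinearMap.zero_apply]

end Sep

end Pool.Agent.TG24
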