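import Pool.Agent.Lib.TG_h77.Poly
import Pool.Agent.Lib.TG42.C3Stmt
import Pool.Agent.Lib.TG_h24.Sep
import Pool.Agent.Lib.TG.WLz

/-!
# TANK G, ASM-c: local degrees and separability of a projection from the ideals of C3

`M` is a field over `F`, `X 0, .., X n ∈ M` homogeneous coordinates (of the generic point of a
subvariety of `P^n` with function field `M`), `γ 0, .., γ n` the values of forms of degree `t`,
`P` a model of `F` which is proportional to the span of the `γ j`, `j ≠ l`.
-/

set_option autoImplicit false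

namespace Pool.Agent.TG24

open Pool.Agent.TG Pool.Agent.TG.Cnt Pool.Agent.TG77
open Pool.Agent.TG42 (mI hh)
open Pool.Agent.LU2 (locV le_locV locV_mono locV_le locV_inv locV_mem locV_locV)
open Module (finrank)

universe u

section Shift

variable {k : Type*} [Field k] {n : ℕ}

/-- Translation of the polynomial ring. -/
noncomputable def shift (η : Fin n → k) :
    MvPolynomial (Fin n) k ≃ₐ[k] MvPolynomial (Fin n) k :=
  AlgEquiv.ofAlgHom (MvPolynomial.aeval fun i => MvPolynomial.X i + MvPolynomial.C (η i))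
    (MvPolynomial.aeval fun i => MvPolynomial.X i - MvPolynomial.C (η i))
    (by
      refine MvPolynomial.algHom_ext fun i => ?_
      rw [AlgHom.comp_apply, MvPolynomial.aeval_X, map_sub, MvPolynomial.aeval_X,
        AlgHom.id_apply, MvPolynomial.aeval_C, MvPolynomial.algebraMap_eq, add_sub_cancel_right])
    (by
      refine MvPolynomial.algHom_ext fun i => ?_
      rw [AlgHom.comp_apply, MvPolynomial.aeval_X, map_add, MvPolynomial.aeval_X,
        AlgHom.id_apply, MvPolynomial.aeval_C, MvPolynomial.algebraMap_eq, sub_add_cancel])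

theorem shift_X (η : Fin n → k) (i : Fin n) :
    shift η (MvPolynomial.X i) = MvPolynomial.X i + MvPolynomial.C (η i) := by
  change MvPolynomial.aeval (fun i => MvPolynomial.X i + MvPolynomial.C (η i))
    (MvPolynomial.X i : MvPolynomial (Fin n) k) = _
  rw [MvPolynomial.aeval_X]

theorem shift_symm_X (η : Fin n → k) (i : Fin n) :
    (shift η).symm (MvPolynomial.X i) = MvPolynomial.X i - MvPolynomial.C (η i) := by
  change MvPolynomial.aeval (fun i => MvPolynomial.X i - MvPolynomial.C (η i))
    (MvPolynomial.X i : MvPolynomial (Fin n) k) = _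
  rw [MvPolynomial.aeval_X]

theorem shift_C (η : Fin n → k) (c : k) :
    shift η (MvPolynomial.C c) = MvPolynomial.C c := by
  rw [← MvPolynomial.algebraMap_eq]
  exact (shift η).commutes c

theorem map_mI (η : Fin n → k) : (mI η).map (shift η : MvPolynomial (Fin n) k →+* _) =
    Ideal.span (Set.range (MvPolynomial.X : Fin n → MvPolynomial (Fin n) k)) := by
  rw [mI, Ideal.map_span, ← Set.range_comp]
  congr 2
  funext i
  change shift η (MvPolynomial.X i - MvPolynomial.C (η i)) = MvPolynomial.X i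
  rw [map_sub, shift_X, shift_C, add_sub_cancel_right]

theorem finite_quot_mI (η : Fin n → k) (T : ℕ) :
    FiniteDimensional k (MvPolynomial (Fin n) k ⧸ mI η ^ T) ∧
      finrank k (MvPolynomial (Fin n) k ⧸ mI η ^ T) ≤ T ^ n := by
  obtain ⟨h1, h2⟩ := finite_quot_pow (k := k) (n := n) T
  let e : (MvPolynomial (Fin n) k ⧸ mI η ^ T) ≃ₐ[k] (MvPolynomial (Fin n) k ⧸
      (Ideal.span (Set.range (MvPolynomial.X : Fin n → MvPolynomial (Fin n) k))) ^ T) :=
    Ideal.quotientEquivAlg _ _ (shift η) (by rw [Ideal.map_pow, map_mI])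
  exact ⟨Module.Finite.equiv e.symm.toLinearEquiv, by
    rw [e.toLinearEquiv.finrank_eq]
    exact h2⟩

end Shift

section Val

variable {k M : Type u} [Field k] [Field M] [Algebra k M] {W : ValuationSubring M} {n : ℕ}

theorem aeval_res (hW : Ov k W) {ζ : Fin n → M} {η : Fin n → k}
    (hη : ∀ i, W.valuation (ζ i - algebraMap k M (η i)) < 1) (q : MvPolynomial (Fin n) k) :
    MvPolynomial.aeval ζ q ∈ W ∧
      W.valuation (MvPolynomial.aeval ζ q - algebraMap k M (MvPolynomial.eval η q)) < 1 := by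
  have hζ : ∀ i, ζ i ∈ W := by
    intro i
    have h1 : ζ i = (ζ i - algebraMap k M (η i)) + algebraMap k M (η i) := by ring
    rw [h1]
    exact W.add_mem _ _ ((W.valuation_le_one_iff _).1 (hη i).le) (hW _)
  induction q using MvPolynomial.induction_on with
  | C a =>
    rw [MvPolynomial.aeval_C, MvPolynomial.eval_C, sub_self, map_zero]
    exact ⟨hW a, zero_lt_one⟩
  | add p q hp hq =>
    refine ⟨by rw [map_add]; exact W.add_mem _ _ hp.1 hq.1, ?_⟩
    rw [map_add, map_add, map_add, add_sub_add_comm]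
    exact Valuation.map_add_lt _ hp.2 hq.2
  | mul_X p i hp =>
    refine ⟨by rw [map_mul, MvPolynomial.aeval_X]; exact W.mul_mem _ _ hp.1 (hζ i), ?_⟩
    rw [map_mul, MvPolynomial.aeval_X, map_mul, MvPolynomial.eval_X, map_mul]
    have h1 : MvPolynomial.aeval ζ p * ζ i -
        algebraMap k M (MvPolynomial.eval η p) * algebraMap k M (η i) =
        MvPolynomial.aeval ζ p * (ζ i - algebraMap k M (η i)) +
          algebraMap k M (η i) * (MvPolynomial.aeval ζ p -
            algebraMap k M (MvPolynomial.eval η p)) := by ring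
    rw [h1]
    refine Valuation.map_add_lt _ ?_ ?_
    · rw [map_mul]
      exact (mul_le_of_le_one_left zero_le ((W.valuation_le_one_iff _).2 hp.1)).trans_lt (hη i)
    · rw [map_mul]
      exact (mul_le_of_le_one_left zero_le ((W.valuation_le_one_iff _).2 (hW _))).trans_lt hp.2

theorem aeval_unit (hW : Ov k W) {ζ : Fin n → M} {η : Fin n → k}
    (hη : ∀ i, W.valuation (ζ i - algebraMap k M (η i)) < 1) {q : MvPolynomial (Fin n) k}
    (hq : MvPolynomial.eval η q ≠ 0) : W.valuation (MvPolynomial.aeval ζ q) = 1 := by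
  obtain ⟨h1, h2⟩ := aeval_res hW hη q
  refine le_antisymm ((W.valuation_le_one_iff _).2 h1) (not_lt.1 fun h3 => hq ?_)
  refine TG77.const_eq_zero hW ?_
  have h4 : algebraMap k M (MvPolynomial.eval η q) = MvPolynomial.aeval ζ q -
      (MvPolynomial.aeval ζ q - algebraMap k M (MvPolynomial.eval η q)) := by ring
  rw [h4]
  exact Valuation.map_sub_lt _ h3 h2

theorem eval_eq_zero (hW : Ov k W) {ζ : Fin n → M} {η : Fin n → k}
    (hη : ∀ i, W.valuation (ζ i - algebraMap k M (η i)) < 1) {q : MvPolynomial (Fin n) k}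
    (hq : MvPolynomial.aeval ζ q = 0) : MvPolynomial.eval η q = 0 := by
  by_contra h
  have h1 := aeval_unit hW hη h
  rw [hq, map_zero] at h1
  exact zero_ne_one h1

/-- Multiples of a model. -/
theorem NV_scale (hW : Ov k W) {P : Submodule k M} (hP : IsModel P) {c : M} (hc : c ≠ 0) :
    NV W (Submodule.span k {c} * P) = NV W P := by
  have hm : IsModel (Submodule.span k {c} : Submodule k M) :=
    ⟨⟨{c}, by simp⟩, fun h => hc (Submodule.span_singleton_eq_bot.1 h)⟩
  have hmin : IsMin W (Submodule.span k {c}) c := by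
    refine isMin_of_span hW (Submodule.subset_span rfl) hc fun g hg => ?_
    rw [Set.mem_singleton_iff.1 hg, div_self hc]
    exact W.one_mem
  refine NV_congr ?_
  rw [RV_mul hW hm hP, sup_eq_right.2, locV_RV]
  rw [RV_le_iff (fun _ ha h1 => RV_inv ha h1) hmin]
  intro g hg
  obtain ⟨a, rfl⟩ := Submodule.mem_span_singleton.1 hg
  rw [smul_div_assoc, div_self hc, ← Algebra.algebraMap_eq_smul_one]
  exact Subalgebra.algebraMap_mem _ a

end Val

section Chart

variable {k F M : Type u} [Field k] [Field F] [Field M] [Algebra k F] [Algebra F M] [Algebra k M]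
  [IsScalarTower k F M]

/-- **The length in one chart.** -/
theorem len_chart {W : ValuationSubring M} (hW : ZDim k W) {L : Submodule k M} (hL : IsModel L)
    {x₀ : M} (hl : IsMin W L x₀) {n : ℕ} {ζ : Fin n → M}
    (hgen : ch L x₀ = Algebra.adjoin k (Set.range ζ)) {η : Fin n → k}
    (hη : ∀ i, W.valuation (ζ i - algebraMap k M (η i)) < 1) {T : ℕ}
    {g : Fin (n + 1) → MvPolynomial (Fin n) k} {Δ : MvPolynomial (Fin n) k} {i₀ l : Fin (n + 1)}
    (h0 : MvPolynomial.eval η (g i₀) ≠ 0)
    (hT : mI η ^ T ≤ Ideal.span (hh g η i₀ '' {j | j ≠ l}) ⊔ Ideal.span {Δ} ⊔ mI η ^ (T + 1))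
    (hΔ : MvPolynomial.aeval ζ Δ = 0) (β : Fin (n + 1) → F)
    (hβ : ∀ j, j ≠ l → algebraMap F M (β j) * MvPolynomial.aeval ζ (g i₀) =
      MvPolynomial.aeval ζ (g j)) (O : Subalgebra k M) (hO : O = RV W L) :
    ∃ (r : ℕ) (h : Fin r → F) (hh : ∀ i, algebraMap F M (h i) ∈ O),
      (∀ i, W.valuation (algebraMap F M (h i)) < 1) ∧
      FiniteDimensional k (O ⧸
        Ideal.span (Set.range fun i => (⟨algebraMap F M (h i), hh i⟩ : O))) ∧
      finrank k (O ⧸
        Ideal.span (Set.range fun i => (⟨algebraMap F M (h i), hh i⟩ : O))) ≤ T ^ n := by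
  classical
  subst hO
  have hloc := RV_local hW.ov hL
  have hnoe := RV_noeth hW hL hl
  have hζ : ∀ i, ζ i ∈ RV W L := by
    intro i
    rw [RV_eq hl, hgen]
    exact le_locV _ (Algebra.subset_adjoin ⟨i, rfl⟩)
  have haev : ∀ q : MvPolynomial (Fin n) k, MvPolynomial.aeval ζ q ∈ RV W L := by
    intro q
    rw [RV_eq hl, hgen, Algebra.adjoin_range_eq_range_aeval]
    exact le_locV _ ⟨q, rfl⟩
  have hu0 := aeval_unit hW.ov hη h0
  have hu0' : MvPolynomial.aeval ζ (g i₀) ≠ 0 := by
    intro h
    rw [h, map_zero] at hu0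
    exact zero_ne_one hu0
  have hinv : (MvPolynomial.aeval ζ (g i₀))⁻¹ ∈ RV W L := RV_inv (haev _) hu0
  let c : Fin (n + 1) → k := fun j => MvPolynomial.eval η (g j) / MvPolynomial.eval η (g i₀)
  let h : Fin (n + 1) → F := fun j => if j = l then 0 else β j - algebraMap k F (c j)
  have hβ' : ∀ j, j ≠ l → algebraMap F M (β j) =
      MvPolynomial.aeval ζ (g j) * (MvPolynomial.aeval ζ (g i₀))⁻¹ := fun j hj => by
    rw [← hβ j hj]
    field_simp
  have hhj : ∀ j, j ≠ l → algebraMap F M (h j) =
      algebraMap F M (β j) - algebraMap k M (c j) := fun j hj => by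
    simp only [h, if_neg hj]
    rw [map_sub, ← IsScalarTower.algebraMap_apply]
  have hhl : algebraMap F M (h l) = 0 := by
    simp only [h, if_true]
    rw [map_zero]
  have hhO : ∀ j, algebraMap F M (h j) ∈ RV W L := by
    intro j
    by_cases hj : j = l
    · subst hj
      rw [hhl]
      exact Subalgebra.zero_mem _
    · rw [hhj j hj, hβ' j hj]
      exact Subalgebra.sub_mem _ (Subalgebra.mul_mem _ (haev _) hinv)
        (Subalgebra.algebraMap_mem _ _)
  -- `g_{i₀}(η) g_{i₀}(ζ) h_j = hh_j(ζ)`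
  have hrel : ∀ j, j ≠ l → MvPolynomial.aeval ζ (hh g η i₀ j) =
      algebraMap k M (MvPolynomial.eval η (g i₀)) * MvPolynomial.aeval ζ (g i₀) *
        algebraMap F M (h j) := by
    intro j hj
    rw [hhj j hj, hh, map_sub, map_mul, map_mul, MvPolynomial.aeval_C, MvPolynomial.aeval_C,
      ← hβ j hj]
    have h1 : algebraMap k M (c j) * algebraMap k M (MvPolynomial.eval η (g i₀)) =
        algebraMap k M (MvPolynomial.eval η (g j)) := by
      rw [← map_mul]
      congr 1
      simp only [c]
      field_simp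
    rw [← h1]
    ring
  have hpos : ∀ j, W.valuation (algebraMap F M (h j)) < 1 := by
    intro j
    by_cases hj : j = l
    · subst hj
      rw [hhl, map_zero]
      exact zero_lt_one
    · have h1 := (aeval_res hW.ov hη (hh g η i₀ j)).2
      have h2 : MvPolynomial.eval η (hh g η i₀ j) = 0 := by
        rw [hh, map_sub, map_mul, map_mul, MvPolynomial.eval_C, MvPolynomial.eval_C]
        ring
      rw [h2, map_zero, sub_zero, hrel j hj, map_mul, map_mul, hu0, mul_one] at h1
      have h3 : W.valuation (algebraMap k M (MvPolynomial.eval η (g i₀))) = 1 :=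
        val_eq_one_of_mem_inv (by rw [Ne, map_eq_zero]; exact h0) (hW.ov _)
          (by rw [← map_inv₀]; exact hW.ov _)
      rw [h3, one_mul] at h1
      exact h1
  let π : MvPolynomial (Fin n) k →ₐ[k] RV W L :=
    MvPolynomial.aeval fun i => (⟨ζ i, hζ i⟩ : RV W L)
  have hπa : ∀ q, (π q : M) = MvPolynomial.aeval ζ q := by
    intro q
    have h3 : ((RV W L).val.comp π) = MvPolynomial.aeval ζ := by
      refine MvPolynomial.algHom_ext fun i => ?_
      rw [MvPolynomial.aeval_X, AlgHom.comp_apply]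
      change ((MvPolynomial.aeval (fun i => (⟨ζ i, hζ i⟩ : RV W L)) (MvPolynomial.X i) :
        RV W L) : M) = ζ i
      rw [MvPolynomial.aeval_X]
    rw [← h3]
    rfl
  let π' : MvPolynomial (Fin n) k →ₐ[k] RV W L := π.comp (shift η).symm.toAlgHom
  have hπ' : ∀ i, (π' (MvPolynomial.X i) : M) = ζ i - algebraMap k M (η i) := by
    intro i
    change (π ((shift η).symm (MvPolynomial.X i)) : M) = _
    rw [shift_symm_X, hπa, map_sub, MvPolynomial.aeval_X, MvPolynomial.aeval_C]
  have hmap' := map_X_eq hW hL hl (fun i => ζ i - algebraMap k M (η i)) hη (by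
    rw [hgen]
    refine Algebra.adjoin_le ?_
    rintro _ ⟨i, rfl⟩
    have h1 : ζ i = (ζ i - algebraMap k M (η i)) + algebraMap k M (η i) := by ring
    rw [h1]
    exact Subalgebra.add_mem _ (Algebra.subset_adjoin ⟨i, rfl⟩)
      (Subalgebra.algebraMap_mem _ _)) π' hπ'
  have hmap : (mI η).map π = IsLocalRing.maximalIdeal (RV W L) := by
    rw [← hmap', mI, Ideal.map_span, ← Set.range_comp, Ideal.map_span, ← Set.range_comp]
    congr 2
    funext i
    apply Subtype.ext
    rw [Function.comp_apply, Function.comp_apply, hπ', hπa, map_sub, MvPolynomial.aeval_X,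
      MvPolynomial.aeval_C]
  have hres : ∀ a : RV W L, ∃ c : k,
      a - algebraMap k (RV W L) c ∈ IsLocalRing.maximalIdeal (RV W L) := by
    intro a
    obtain ⟨c, hc⟩ := hW.res a (RV_le hW.ov hL _ a.2)
    exact ⟨c, (mem_max_iff hW.ov hL _).2 hc⟩
  have hIJ : (Ideal.span (hh g η i₀ '' {j | j ≠ l}) ⊔ Ideal.span {Δ}).map π ≤
      Ideal.span (Set.range fun i => (⟨algebraMap F M (h i), hhO i⟩ : RV W L)) := by
    rw [Ideal.map_le_iff_le_comap, sup_le_iff, Ideal.span_le, Ideal.span_le]
    constructor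
    · rintro _ ⟨j, hj, rfl⟩
      rw [SetLike.mem_coe, Ideal.mem_comap]
      have h1 : π (hh g η i₀ j) = (algebraMap k (RV W L) (MvPolynomial.eval η (g i₀)) *
          π (g i₀)) * ⟨algebraMap F M (h j), hhO j⟩ := by
        apply Subtype.ext
        rw [hπa, hrel j hj]
        change _ = algebraMap k M _ * (π (g i₀) : M) * _
        rw [hπa]
      rw [h1]
      exact Ideal.mul_mem_left _ _ (Ideal.subset_span ⟨j, rfl⟩)
    · rintro q hq
      rw [Set.mem_singleton_iff.1 hq, SetLike.mem_coe, Ideal.mem_comap]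
      have h1 : π Δ = 0 := Subtype.ext (by rw [hπa, hΔ]; rfl)
      rw [h1]
      exact Ideal.zero_mem _
  obtain ⟨hf1, hf2⟩ := finite_quot_mI (k := k) η T
  obtain ⟨hg1, hg2⟩ := finrank_le_of_pow π (mI η) hmap hres _ _ hIJ T hT
  exact ⟨n + 1, h, hhO, hpos, hg1, hg2.trans hf2⟩

end Chart

end Pool.Agent.TG24
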